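import Pool.Agent.R769.Glue

/-!
# Charts given by injective local diffeomorphisms; gluing
-/

set_option autoImplicit false

open Set Filter Topology Metric Function
open scoped Manifold ContDiff

noncomputable section

namespace Pool.Agent.R769

open Pool.Agent.Y522 TopologicalSpace

variable {n : ℕ} {M N : Type} [TopologicalSpace M] [ChartedSpace (E n) M]
    [TopologicalSpace N] [ChartedSpace (E n) N]

/-- an injective local diffeomorphism on an open set is a partial diffeomorphism -/
theorem exists_pd (V : Set N) (hV : IsOpen V) (ψ : N → E n) (hi : InjOn ψ V)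
    (hL : ∀ y ∈ V, LD n ψ y) [Nonempty N] :
    ∃ Ψ : PartialDiffeomorph (𝓡 n) (𝓡 n) N (E n) ∞, Ψ.source = V ∧ ∀ y, Ψ y = ψ y := by
  classical
  refine ⟨{ toFun := ψ, invFun := invFunOn ψ V, source := V, target := ψ '' V,
            map_source' := fun y hy => mem_image_of_mem ψ hy,
            map_target' := fun y hy => invFunOn_mem hy,
            left_inv' := fun y hy => hi.leftInvOn_invFunOn hy,
            right_inv' := fun y hy => invFunOn_eq hy,
            open_source := hV, open_target := isOpen_image_of_LD hV hL,
            contMDiffOn_toFun := fun y hy => (hL y hy).contMDiffAt.contMDiffWithinAt,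
            contMDiffOn_invFun := ?_ }, rfl, fun _ => rfl⟩
  rintro _ ⟨y, hy, rfl⟩
  have h1 : LD n (invFunOn ψ V) (ψ y) :=
    LD.inverse hV hL (fun x hx => hi.leftInvOn_invFunOn hx) hy
  exact h1.contMDiffAt.contMDiffWithinAt

end Pool.Agent.R769
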