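import Pool.Agent.Y522.Sch
import Pool.Agent.R769.Chart

/-!
# Directionally monotone homeomorphisms of closed manifolds: auxiliary form
-/

set_option autoImplicit false

open Set Filter Topology Function
open scoped Manifold ContDiff

namespace Pool.Agent.R769.DM

/-- `ℝ⁴` -/
abbrev R4 : Type := EuclideanSpace ℝ (Fin 4)

/-- `f : M → ℝ⁴` is directionally monotone at `x` -/
def DirMonotone {M : Type} [TopologicalSpace M] [ChartedSpace R4 M] (f : M → R4) (x : M) : Prop :=
  ∃ A : R4 → M, A 0 = x ∧ Pool.Agent.Y522.LD 4 A 0 ∧ ∀ v : R4, v ≠ 0 → ∃ (r : ℝ) (ℓ : R4 →L[ℝ] ℝ), 0 < r ∧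
    ∀ p q : R4, ‖p‖ ≤ r → ‖q‖ ≤ r → ∀ t : ℝ, 0 < t → ‖q - p - t • v‖ ≤ r * t →
      ℓ (f (A p)) < ℓ (f (A q))

theorem aux (M N : Type) [TopologicalSpace M] [TopologicalSpace N] [ChartedSpace R4 M]
    [ChartedSpace R4 N] [IsManifold (𝓡 4) ∞ M] [IsManifold (𝓡 4) ∞ N] [T2Space M] [CompactSpace M]
    (h : M ≃ₜ N) (ψ : PartialDiffeomorph (𝓡 4) (𝓡 4) N R4 ∞) (hψ : IsPreconnected ψ.source)
    (hc : ∀ x, ¬ Pool.Agent.Y522.LD 4 h x → h x ∈ ψ.source ∧ DirMonotone (fun y => ψ (h y)) x) :
    ∃ (Φ : Diffeomorph (𝓡 4) (𝓡 4) M N ∞) (K : Set M), IsCompact K ∧ K ⊆ h ⁻¹' ψ.source ∧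
      ∀ x, x ∉ K → Φ x = h x := by
  classical
  let U : TopologicalSpace.Opens M := ⟨h ⁻¹' ψ.source, ψ.open_source.preimage h.continuous⟩
  have hU : ∀ x, x ∈ U ↔ h x ∈ ψ.source := fun x => Iff.rfl
  let F : U → R4 := fun x => ψ (h x.1)
  have hLDF : ∀ x : U, Pool.Agent.Y522.LD 4 h x.1 → Pool.Agent.Y522.LD 4 F x := by
    intro x hx
    have h1 : Pool.Agent.Y522.LD 4 (fun y => ψ (h y)) x.1 :=
      Pool.Agent.Y522.LD.comp_fun (g := fun z => ψ z) (f := h)
        (Pool.Agent.R769.LD_pd ψ x.2) hx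
    exact Pool.Agent.R769.LD_restrict U h1
  have hFc : Continuous F := by
    have h1 : ContinuousOn (fun z => ψ z) ψ.source := ψ.contMDiffOn_toFun.continuousOn
    exact h1.comp_continuous (h.continuous.comp continuous_subtype_val) (fun x => x.2)
  have hFi : Injective F := by
    intro x y hxy
    have h1 : h x.1 = h y.1 := ψ.toPartialEquiv.injOn x.2 y.2 hxy
    exact Subtype.ext (h.injective h1)
  have hFo : IsOpenMap F := by
    intro S hS
    have h1 : IsOpen (Subtype.val '' S : Set M) := U.isOpen.isOpenMap_subtype_val S hS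
    have h2 : IsOpen (h '' (Subtype.val '' S)) := h.isOpenMap _ h1
    have h3 : h '' (Subtype.val '' S) ⊆ ψ.source := by
      rintro _ ⟨_, ⟨x, _, rfl⟩, rfl⟩
      exact x.2
    have h4 := ψ.toOpenPartialHomeomorph.isOpen_image_of_subset_source h2 h3
    have h5 : F '' S = ψ.toOpenPartialHomeomorph '' (h '' (Subtype.val '' S)) := by
      rw [image_image, image_image]
      rfl
    rw [h5]
    exact h4
  have hrange : range F = ψ.target := by
    ext y
    constructor
    · rintro ⟨x, rfl⟩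
      exact ψ.map_source x.2
    · intro hy
      have h1 : h (h.symm (ψ.symm y)) ∈ ψ.source := by
        rw [h.apply_symm_apply]
        exact ψ.map_target hy
      refine ⟨⟨h.symm (ψ.symm y), h1⟩, ?_⟩
      change ψ (h (h.symm (ψ.symm y))) = y
      rw [h.apply_symm_apply]
      exact ψ.right_inv hy
  have hpre : IsPreconnected (range F) := by
    rw [hrange]
    have h1 : ψ.target = ψ.toOpenPartialHomeomorph '' ψ.source :=
      ψ.toOpenPartialHomeomorph.image_source_eq_target.symm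
    rw [h1]
    exact hψ.image _ ψ.contMDiffOn_toFun.continuousOn
  have hbad : IsCompact {x | ¬ Pool.Agent.Y522.LD 4 h x} := by
    apply IsClosed.isCompact
    rw [← isOpen_compl_iff, isOpen_iff_mem_nhds]
    intro x hx
    have hx' : Pool.Agent.Y522.LD 4 h x := by
      by_contra h'
      exact hx h'
    filter_upwards [hx'.eventually] with y hy
    exact fun h' => h' hy
  have hK : IsCompact {x : U | ¬ Pool.Agent.Y522.LD 4 F x} :=
    Pool.Agent.R769.isCompact_bad h U hbad (fun x hx => (hc x hx).1) F hLDF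
  have hco : ∀ x : U, ¬ Pool.Agent.Y522.LD 4 F x → Pool.Agent.Y522.DMon 4 F x := by
    intro x hx
    obtain ⟨-, A, hA0, hAL, hA⟩ := hc x.1 (fun h' => hx (hLDF x h'))
    obtain ⟨p, hp, hpx, h1, h2⟩ := (Pool.Agent.R769.LD_val (n := 4) U x).exists_inverse
    have hpA : Pool.Agent.Y522.LD 4 (fun z => p (A z)) 0 := by
      have h3 : Pool.Agent.Y522.LD 4 p (A 0) := by rw [hA0]; exact hp
      exact Pool.Agent.Y522.LD.comp_fun (g := p) (f := A) h3 hAL
    have h2' : ∀ᶠ z in 𝓝 (A 0), (p z).1 = z := by rw [hA0]; exact h2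
    have h3 : ∀ᶠ z in 𝓝 (0 : R4), (p (A z)).1 = A z :=
      hAL.contMDiffAt.continuousAt.tendsto.eventually h2'
    obtain ⟨ρ, hρ, hρ'⟩ := Metric.eventually_nhds_iff.1 h3
    refine ⟨fun z => p (A z), ?_, hpA, ?_⟩
    · change p (A 0) = x
      rw [hA0]
      exact hpx
    · intro v hv
      obtain ⟨r, ℓ, hr, hmon⟩ := hA v hv
      refine ⟨min r (ρ / 2), ℓ, lt_min hr (by linarith), ?_⟩
      intro a b ha hb t ht hab
      have ea : (p (A a)).1 = A a := by
        apply hρ'
        rw [dist_zero_right]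
        have := ha.trans (min_le_right _ _)
        linarith
      have eb : (p (A b)).1 = A b := by
        apply hρ'
        rw [dist_zero_right]
        have := hb.trans (min_le_right _ _)
        linarith
      change ℓ (ψ (h (p (A a)).1)) < ℓ (ψ (h (p (A b)).1))
      rw [ea, eb]
      exact hmon a b (ha.trans (min_le_left _ _)) (hb.trans (min_le_left _ _)) t ht
        (hab.trans (mul_le_mul_of_nonneg_right (min_le_left _ _) ht.le))
  obtain ⟨F', C, hC, -, hinj, hrange', hoff, hLD⟩ :=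
    Pool.Agent.Y522.stMGlobV 4 U F (Topology.IsOpenEmbedding.of_continuous_injective_isOpenMap
      hFc hFi hFo) hpre hco hK
  refine Pool.Agent.R769.glue h ψ U hU F' C hC hoff hinj (hrange'.trans hrange) hLD ?_
  intro x hx
  by_contra h'
  exact hx (hc x h').1

end Pool.Agent.R769.DM
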