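import Pool.Agent.R769.Loc

/-!
# Gluing a modified homeomorphism in one chart of the target
-/

set_option autoImplicit false

open Set Filter Topology Metric Function
open scoped Manifold ContDiff

noncomputable section

namespace Pool.Agent.R769

open Pool.Agent.Y522 TopologicalSpace

variable {n : ℕ} {M N : Type} [TopologicalSpace M] [ChartedSpace (E n) M]
    [TopologicalSpace N] [ChartedSpace (E n) N]

theorem LD_pd (ψ : PartialDiffeomorph (𝓡 n) (𝓡 n) N (E n) ∞) {y : N} (hy : y ∈ ψ.source) :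
    LD n (fun z => ψ z) y := ⟨ψ, hy, fun _ _ => rfl⟩

theorem LD_pd_symm (ψ : PartialDiffeomorph (𝓡 n) (𝓡 n) N (E n) ∞) {y : E n}
    (hy : y ∈ ψ.target) : LD n (fun z => ψ.symm z) y := ⟨ψ.symm, hy, fun _ _ => rfl⟩

open Classical in
/-- the glued map -/
def gl (h : M → N) (ψ : PartialDiffeomorph (𝓡 n) (𝓡 n) N (E n) ∞) (U : Opens M)
    (F' : U → E n) (x : M) : N :=
  if hx : x ∈ U then ψ.symm (F' ⟨x, hx⟩) else h x

theorem gl_mem (h : M → N) (ψ : PartialDiffeomorph (𝓡 n) (𝓡 n) N (E n) ∞) (U : Opens M)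
    (F' : U → E n) (x : U) : gl h ψ U F' x.1 = ψ.symm (F' x) := by
  unfold gl
  rw [dif_pos x.2]

theorem gl_not_mem (h : M → N) (ψ : PartialDiffeomorph (𝓡 n) (𝓡 n) N (E n) ∞) (U : Opens M)
    (F' : U → E n) {x : M} (hx : x ∉ U) : gl h ψ U F' x = h x := by
  unfold gl
  rw [dif_neg hx]

theorem glue [IsManifold (𝓡 n) ∞ M] [T2Space M] (h : M ≃ₜ N)
    (ψ : PartialDiffeomorph (𝓡 n) (𝓡 n) N (E n) ∞) (U : Opens M)
    (hU : ∀ x, x ∈ U ↔ h x ∈ ψ.source) (F' : U → E n) (C : Set U) (hC : IsCompact C)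
    (hoff : ∀ x ∉ C, F' x = ψ (h x.1)) (hinj : Injective F') (hrange : range F' = ψ.target)
    (hLD : ∀ x, LD n F' x) (hh : ∀ x, x ∉ U → LD n h x) :
    ∃ (Φ : Diffeomorph (𝓡 n) (𝓡 n) M N ∞) (K : Set M), IsCompact K ∧
      K ⊆ h ⁻¹' ψ.source ∧ ∀ x, x ∉ K → Φ x = h x := by
  set G : M → N := gl h ψ U F' with hG
  have htar : ∀ x : U, F' x ∈ ψ.target := fun x => hrange ▸ mem_range_self x
  have hGU : ∀ x : U, G x.1 ∈ ψ.source := by
    intro x
    rw [hG, gl_mem]
    exact ψ.map_target (htar x)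
  have hGnU : ∀ x, x ∉ U → G x ∉ ψ.source := by
    intro x hx
    rw [hG, gl_not_mem h ψ U F' hx]
    exact fun h' => hx ((hU x).2 h')
  have hbij : Bijective G := by
    constructor
    · intro x y hxy
      by_cases hx : x ∈ U
      · by_cases hy : y ∈ U
        · have h1 : ψ.symm (F' ⟨x, hx⟩) = ψ.symm (F' ⟨y, hy⟩) := by
            have e1 := gl_mem (h : M → N) ψ U F' ⟨x, hx⟩
            have e2 := gl_mem (h : M → N) ψ U F' ⟨y, hy⟩
            rw [← e1, ← e2]
            exact hxy
          have h2 := ψ.symm.toPartialEquiv.injOn (htar ⟨x, hx⟩) (htar ⟨y, hy⟩) h1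
          exact congrArg Subtype.val (hinj h2)
        · exfalso
          apply hGnU y hy
          rw [← hxy]
          exact hGU ⟨x, hx⟩
      · by_cases hy : y ∈ U
        · exfalso
          apply hGnU x hx
          rw [hxy]
          exact hGU ⟨y, hy⟩
        · rw [hG, gl_not_mem h ψ U F' hx, gl_not_mem h ψ U F' hy] at hxy
          exact h.injective hxy
    · intro y
      by_cases hy : y ∈ ψ.source
      · have h1 : ψ y ∈ range F' := by
          rw [hrange]
          exact ψ.map_source hy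
        obtain ⟨x, hx⟩ := h1
        refine ⟨x.1, ?_⟩
        rw [hG, gl_mem, hx]
        exact ψ.left_inv hy
      · refine ⟨h.symm y, ?_⟩
        have h1 : h.symm y ∉ U := by
          rw [hU, h.apply_symm_apply]
          exact hy
        rw [hG, gl_not_mem h ψ U F' h1, h.apply_symm_apply]
  set K : Set M := Subtype.val '' C with hK
  have hKc : IsCompact K := hC.image continuous_subtype_val
  have hGoff : ∀ x, x ∉ K → G x = h x := by
    intro x hx
    by_cases hxU : x ∈ U
    · have h1 : (⟨x, hxU⟩ : U) ∉ C := fun h' => hx ⟨_, h', rfl⟩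
      have e1 := gl_mem (h : M → N) ψ U F' ⟨x, hxU⟩
      have e2 := hoff _ h1
      rw [hG]
      rw [e2] at e1
      rw [e1]
      exact ψ.left_inv ((hU x).1 hxU)
    · rw [hG, gl_not_mem h ψ U F' hxU]
  have hGLD : ∀ x, LD n G x := by
    intro x
    by_cases hx : x ∈ U
    · have h1 : LD n (fun y : U => G y.1) ⟨x, hx⟩ := by
        have e : (fun y : U => G y.1) = fun y : U => ψ.symm (F' y) := by
          funext y
          rw [hG, gl_mem]
        rw [e]
        exact LD.comp_fun (LD_pd_symm ψ (htar _)) (hLD _)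
      exact LD_of_restrict U h1
    · have hxK : x ∉ K := by
        rintro ⟨y, _, rfl⟩
        exact hx y.2
      refine (hh x hx).congr ?_
      filter_upwards [hKc.isClosed.isOpen_compl.mem_nhds hxK] with y hy
      exact hGoff y hy
  have hloc : IsLocalDiffeomorph (𝓡 n) (𝓡 n) ∞ G := hGLD
  refine ⟨hloc.diffeomorphOfBijective hbij, K, hKc, ?_, ?_⟩
  · rintro _ ⟨y, _, rfl⟩
    exact (hU _).1 y.2
  · intro x hx
    exact hGoff x hx

/-- the compact set of points at which a homeomorphism is not a local diffeomorphism, in an open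
subset containing it -/
theorem isCompact_bad [IsManifold (𝓡 n) ∞ M] (h : M → N) (U : Opens M)
    (hK : IsCompact {x | ¬ LD n h x}) (hsub : ∀ x, ¬ LD n h x → x ∈ U) {N' : Type}
    [TopologicalSpace N'] [ChartedSpace (E n) N'] (F : U → N')
    (hF : ∀ x : U, LD n h x.1 → LD n F x) : IsCompact {x : U | ¬ LD n F x} := by
  have h1 : IsCompact {x : U | ¬ LD n h x.1} := by
    have h2 : {x : U | ¬ LD n h x.1} = Subtype.val ⁻¹' {x | ¬ LD n h x} := rfl
    rw [h2]
    apply Topology.IsInducing.subtypeVal.isCompact_preimage_iff _ |>.2 hK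
    intro x hx
    exact ⟨⟨x, hsub x hx⟩, rfl⟩
  refine h1.of_isClosed_subset ?_ ?_
  · rw [← isOpen_compl_iff]
    rw [isOpen_iff_mem_nhds]
    intro x hx
    have hx' : LD n F x := by
      by_contra h'
      exact hx h'
    filter_upwards [hx'.eventually] with y hy
    exact fun h' => h' hy
  · intro x hx h'
    exact hx (hF x h')

end Pool.Agent.R769
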