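import Pool.Agent.Y522.Tools

/-!
# Open subsets as manifolds: the inclusion is a local diffeomorphism
-/

set_option autoImplicit false

open Set Filter Topology Metric Function
open scoped Manifold ContDiff

noncomputable section

namespace Pool.Agent.R769

open Pool.Agent.Y522 TopologicalSpace

variable {n : ℕ} {M N : Type*} [TopologicalSpace M] [ChartedSpace (E n) M]
    [TopologicalSpace N] [ChartedSpace (E n) N]

open Classical in
/-- the inverse of the inclusion -/
def gU (U : Opens M) (x₀ : U) (m : M) : U := if h : m ∈ U then ⟨m, h⟩ else x₀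

theorem contMDiffOn_gU [IsManifold (𝓡 n) ∞ M] (U : Opens M) (x₀ : U) :
    ContMDiffOn (𝓡 n) (𝓡 n) ∞ (gU U x₀) (U : Set M) := by
  intro m hm
  refine ContMDiffAt.contMDiffWithinAt ?_
  set x : U := ⟨m, hm⟩ with hxdef
  have hsrc : m ∈ (chartAt (E n) m).source := mem_chart_source (E n) m
  have h1 : ContMDiffAt (𝓡 n) (𝓡 n) ∞ (chartAt (E n) m) m :=
    contMDiffOn_chart.contMDiffAt ((chartAt (E n) m).open_source.mem_nhds hsrc)
  have hxt : chartAt (E n) m m ∈ (chartAt (E n) x).target := by
    have := mem_chart_target (E n) x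
    exact this
  have h2 : ContMDiffAt (𝓡 n) (𝓡 n) ∞ (chartAt (E n) x).symm (chartAt (E n) m m) :=
    contMDiffOn_chart_symm.contMDiffAt ((chartAt (E n) x).open_target.mem_nhds hxt)
  refine (h2.comp m h1).congr_of_eventuallyEq ?_
  have h3 : ∀ᶠ y in 𝓝 m, (chartAt (E n) m).symm (chartAt (E n) m y) =
      ((chartAt (E n) x).symm (chartAt (E n) m y)).1 := by
    have h4 := U.chartAt_subtype_val_symm_eventuallyEq (H := E n) (x := x)
    exact h1.continuousAt.tendsto.eventually h4
  filter_upwards [(chartAt (E n) m).open_source.mem_nhds hsrc, U.isOpen.mem_nhds hm, h3]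
    with y hy hy' hy3
  have h5 : gU U x₀ y = ⟨y, hy'⟩ := dif_pos hy'
  rw [h5]
  refine Subtype.ext ?_
  change y = ((chartAt (E n) x).symm (chartAt (E n) m y)).1
  rw [← hy3]
  exact ((chartAt (E n) m).left_inv hy).symm

theorem LD_val [IsManifold (𝓡 n) ∞ M] (U : Opens M) (x : U) :
    LD n (Subtype.val : U → M) x := by
  refine ⟨{ toFun := Subtype.val, invFun := gU U x, source := univ, target := U,
            map_source' := fun y _ => y.2, map_target' := fun _ _ => mem_univ _,
            left_inv' := fun y _ => ?_, right_inv' := fun m hm => ?_,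
            open_source := isOpen_univ, open_target := U.isOpen,
            contMDiffOn_toFun := contMDiff_subtype_val.contMDiffOn,
            contMDiffOn_invFun := contMDiffOn_gU U x }, mem_univ _, fun _ _ => rfl⟩
  · exact dif_pos y.2
  · have h3 : gU U x m = ⟨m, hm⟩ := dif_pos hm
    rw [h3]

/-- restriction of a local diffeomorphism -/
theorem LD_restrict [IsManifold (𝓡 n) ∞ M] (U : Opens M) {f : M → N} {x : U}
    (hf : LD n f x.1) : LD n (fun y : U => f y.1) x :=
  LD.comp_fun (f := (Subtype.val : U → M)) hf (LD_val U x)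

/-- a map which is a local diffeomorphism on an open subset -/
theorem LD_of_restrict [IsManifold (𝓡 n) ∞ M] (U : Opens M) {f : M → N} {x : U}
    (hf : LD n (fun y : U => f y.1) x) : LD n f x.1 := by
  obtain ⟨p, hp, hpx, h1, h2⟩ := (LD_val (n := n) U x).exists_inverse
  have hp' : LD n p x.1 := hp
  have hpx' : p x.1 = x := hpx
  have h3 : LD n (fun z => (fun y : U => f y.1) (p z)) x.1 := by
    refine LD.comp_fun (g := fun y : U => f y.1) (f := p) ?_ hp'
    rw [hpx']
    exact hf
  refine h3.congr ?_
  have h2' : ∀ᶠ z in 𝓝 x.1, (p z).1 = z := h2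
  filter_upwards [h2'] with z hz
  change f z = f (p z).1
  rw [hz]

end Pool.Agent.R769
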