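import Pool.Agent.Y522.Compact
import Pool.Agent.R769.Chart

/-!
# Homeomorphisms with three smooth coordinates: auxiliary form
-/

set_option autoImplicit false

open Set Filter Topology Function
open scoped Manifold ContDiff

namespace Pool.Agent.R769.TS

/-- `ℝ⁴` -/
abbrev R4 : Type := EuclideanSpace ℝ (Fin 4)

/-- three linear coordinates `P` of `f` are smooth near `x`, with independent differentials at `x` -/
def ThreeSmooth {M : Type} [TopologicalSpace M] [ChartedSpace R4 M] (f : M → R4) (x : M) : Prop :=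
  ∃ P : R4 →L[ℝ] EuclideanSpace ℝ (Fin 3),
    (∀ᶠ y in 𝓝 x, ContMDiffAt (𝓡 4) (𝓡 3) ∞ (fun y => P (f y)) y) ∧
      Surjective (mfderiv (𝓡 4) (𝓡 3) (fun y => P (f y)) x)

/-- three linear coordinates of `f` near `x` agree with three coordinates of a smooth chart -/
theorem threeSmooth_of_eq {M : Type} [TopologicalSpace M] [ChartedSpace R4 M] {f : M → R4} {x : M}
    (P Q : R4 →L[ℝ] EuclideanSpace ℝ (Fin 3)) (e : M → R4) (hQ : Surjective Q)
    (he : Pool.Agent.Y522.LD 4 e x) (heq : ∀ᶠ y in 𝓝 x, P (f y) = Q (e y)) :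
    ThreeSmooth f x := by
  have h1 : (fun y => P (f y)) =ᶠ[𝓝 x] fun y => Q (e y) := heq
  refine ⟨P, ?_, ?_⟩
  · filter_upwards [he.eventually, h1.eventually_nhds] with y hy hy'
    have h3 : ContMDiffAt (𝓡 4) (𝓡 3) ∞ (fun y => Q (e y)) y :=
      Q.contDiff.contMDiff.contMDiffAt.comp y hy.contMDiffAt
    exact h3.congr_of_eventuallyEq hy'
  · rw [h1.mfderiv_eq]
    have he' : IsLocalDiffeomorphAt (𝓡 4) (𝓡 4) ∞ e x := he
    have h2 : MDifferentiableAt (𝓡 4) (𝓡 4) e x := he'.contMDiffAt.mdifferentiableAt (by simp)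
    have h3 : mfderiv (𝓡 4) (𝓡 3) (fun y => Q (e y)) x =
        (mfderiv (𝓡 4) (𝓡 3) Q (e x)).comp (mfderiv (𝓡 4) (𝓡 4) e x) :=
      mfderiv_comp x (Q.contDiff.contMDiff.contMDiffAt.mdifferentiableAt
        (by simp : (∞ : WithTop ℕ∞) ≠ 0)) h2
    have h4 : mfderiv (𝓡 4) (𝓡 3) Q (e x) = Q := by
      rw [mfderiv_eq_fderiv]
      exact Q.fderiv
    rw [h3, h4]
    intro w
    obtain ⟨u, hu⟩ := hQ w
    obtain ⟨v, hv⟩ := (he'.mfderivToContinuousLinearEquiv (by simp)).surjective u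
    refine ⟨v, ?_⟩
    rw [← hu, ← hv]
    rfl

theorem aux (M N : Type) [TopologicalSpace M] [TopologicalSpace N] [ChartedSpace R4 M]
    [ChartedSpace R4 N] [IsManifold (𝓡 4) ∞ M] [IsManifold (𝓡 4) ∞ N] [T2Space M] [CompactSpace M]
    (h : M ≃ₜ N) (Ψ : PartialDiffeomorph (𝓡 4) (𝓡 4) N R4 ∞)
    (hc : ∀ x, ¬ Pool.Agent.Y522.LD 4 h x → h x ∈ Ψ.source ∧ ThreeSmooth (fun y => Ψ (h y)) x) :
    ∃ (Φ : Diffeomorph (𝓡 4) (𝓡 4) M N ∞) (K : Set M), IsCompact K ∧ K ⊆ h ⁻¹' Ψ.source ∧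
      ∀ x, x ∉ K → Φ x = h x := by
  classical
  let U : TopologicalSpace.Opens M := ⟨h ⁻¹' Ψ.source, Ψ.open_source.preimage h.continuous⟩
  have hU : ∀ x, x ∈ U ↔ h x ∈ Ψ.source := fun x => Iff.rfl
  let F : U → R4 := fun x => Ψ (h x.1)
  have hLDF : ∀ x : U, Pool.Agent.Y522.LD 4 h x.1 → Pool.Agent.Y522.LD 4 F x := by
    intro x hx
    have h1 : Pool.Agent.Y522.LD 4 (fun y => Ψ (h y)) x.1 :=
      Pool.Agent.Y522.LD.comp_fun (g := fun z => Ψ z) (f := h)
        (Pool.Agent.R769.LD_pd Ψ x.2) hx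
    exact Pool.Agent.R769.LD_restrict U h1
  have hFc : Continuous F := by
    have h1 : ContinuousOn (fun z => Ψ z) Ψ.source := Ψ.contMDiffOn_toFun.continuousOn
    exact h1.comp_continuous (h.continuous.comp continuous_subtype_val) (fun x => x.2)
  have hFi : Injective F := by
    intro x y hxy
    have h1 : h x.1 = h y.1 := Ψ.toPartialEquiv.injOn x.2 y.2 hxy
    exact Subtype.ext (h.injective h1)
  have hbad : IsCompact {x | ¬ Pool.Agent.Y522.LD 4 h x} := by
    apply IsClosed.isCompact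
    rw [← isOpen_compl_iff, isOpen_iff_mem_nhds]
    intro x hx
    have hx' : Pool.Agent.Y522.LD 4 h x := by
      by_contra h'
      exact hx h'
    filter_upwards [hx'.eventually] with y hy
    exact fun h' => h' hy
  have hK : IsCompact {x : U | ¬ Pool.Agent.Y522.LD 4 F x} :=
    Pool.Agent.R769.isCompact_bad h U hbad (fun x hx => (hc x hx).1) F hLDF
  have hco : ∀ x : U, ¬ Pool.Agent.Y522.LD 4 F x → Pool.Agent.Y522.Coord 3 F x := by
    intro x hx
    obtain ⟨-, P, hP1, hP2⟩ := hc x.1 (fun h' => hx (hLDF x h'))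
    refine ⟨P, ?_, ?_⟩
    · have h1 : ∀ᶠ y : U in 𝓝 x, ContMDiffAt (𝓡 4) (𝓡 3) ∞ (fun y => P (Ψ (h y))) y.1 :=
        (continuous_subtype_val.tendsto x).eventually hP1
      filter_upwards [h1] with y hy
      exact contMDiffAt_subtype_iff.2 hy
    · have hv := Pool.Agent.R769.LD_val (n := 4) U x
      have h1 : MDifferentiableAt (𝓡 4) (𝓡 3) (fun y => P (Ψ (h y))) x.1 :=
        hP1.self_of_nhds.mdifferentiableAt (by simp)
      have h2 : mfderiv (𝓡 4) (𝓡 3) (fun y : U => P (F y)) x =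
          (mfderiv (𝓡 4) (𝓡 3) (fun y => P (Ψ (h y))) x.1).comp
            (mfderiv (𝓡 4) (𝓡 4) (Subtype.val : U → M) x) :=
        mfderiv_comp x (g := fun y => P (Ψ (h y))) h1 hv.mdifferentiableAt
      have h3 : Surjective (mfderiv (𝓡 4) (𝓡 4) (Subtype.val : U → M) x) := by
        have h := hv.mfderivToContinuousLinearEquiv_coe (by simp)
        rw [← h]
        exact (hv.mfderivToContinuousLinearEquiv (by simp)).surjective
      change Surjective (mfderiv (𝓡 4) (𝓡 3) (fun y : U => P (F y)) x)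
      rw [h2]
      exact hP2.comp h3
  obtain ⟨F', C, hC, -, hinj, hrange, hoff, hLD⟩ :=
    Pool.Agent.Y522.hGlob 3 U F hFc hFi hco hK
  exact Pool.Agent.R769.glue h Ψ U hU F' C hC hoff hinj
    (by
      rw [hrange]
      ext y
      constructor
      · rintro ⟨x, rfl⟩
        exact Ψ.map_source x.2
      · intro hy
        have h1 : h (h.symm (Ψ.symm y)) ∈ Ψ.source := by
          rw [h.apply_symm_apply]
          exact Ψ.map_target hy
        refine ⟨⟨h.symm (Ψ.symm y), h1⟩, ?_⟩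
        change Ψ (h (h.symm (Ψ.symm y))) = y
        rw [h.apply_symm_apply]
        exact Ψ.right_inv hy) hLD
    (by
      intro x hx
      by_contra h'
      exact hx (hc x h').1)

end Pool.Agent.R769.TS
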